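import Pool.Agent.H6.C3.Par

set_option autoImplicit false
set_option linter.unusedSectionVars false

namespace Pool.Agent.H6.C3

open Polynomial Algebra Module

variable {K : Type*} [Field K] [Fintype K]

/-- If the derivative of a monic irreducible `h` of degree `n` is `c` times a square, then
`(-1)^(n(n-1)/2) c^n` is a square iff `n` is odd. -/
theorem irr_criterion (h2 : (2 : K) ≠ 0) (h : K[X]) (hm : h.Monic) (hi : Irreducible h) (c : K)
    (g : K[X]) (hd : derivative h = C c * g ^ 2) :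
    IsSquare ((-1 : K) ^ (h.natDegree * (h.natDegree - 1) / 2) * c ^ h.natDegree) ↔
      Odd h.natDegree := by
  classical
  have : Fact (Irreducible h) := ⟨hi⟩
  let pb := AdjoinRoot.powerBasis hi.ne_zero
  have : FiniteDimensional K (AdjoinRoot h) := pb.finite
  have : Finite (AdjoinRoot h) := Module.finite_of_finite K
  have hfr : finrank K (AdjoinRoot h) = h.natDegree := by
    rw [PowerBasis.finrank pb]
    exact AdjoinRoot.powerBasis_dim hi.ne_zero
  have h2' : (2 : AdjoinRoot h) ≠ 0 := by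
    intro he
    apply h2
    apply (algebraMap K (AdjoinRoot h)).injective
    rw [map_ofNat, map_zero]
    exact he
  have hs := isSquare_discr h2' pb
  have hgen : pb.gen = AdjoinRoot.root h := AdjoinRoot.powerBasis_gen hi.ne_zero
  have hmin : minpoly K pb.gen = h := by
    rw [hgen, AdjoinRoot.minpoly_root hi.ne_zero, hm.leadingCoeff, inv_one, C_1, mul_one]
  have hdisc := discr_powerBasis_eq_norm K pb
  have hd0 : discr K pb.basis ≠ 0 := discr_not_zero_of_basis K pb.basis
  rw [hmin, hd, hfr, map_mul, aeval_C, map_pow, map_mul, map_pow, Algebra.norm_algebraMap,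
    hfr] at hdisc
  set N : K := Algebra.norm K ((aeval pb.gen) g) with hN
  have hN0 : N ≠ 0 := by
    intro h0
    apply hd0
    rw [hdisc, h0]
    simp
  rw [hfr] at hs
  rw [← hs, hdisc]
  constructor
  · rintro ⟨r, hr⟩
    exact ⟨r * N, by rw [← mul_assoc, hr]; ring⟩
  · rintro ⟨r, hr⟩
    refine ⟨r / N, ?_⟩
    field_simp
    rw [← mul_assoc] at hr
    rw [hr]
    ring

variable [CharP K 3]

theorem two_ne : (2 : K) ≠ 0 := by
  intro h
  have h3 : (3 : K) = 0 := by exact_mod_cast CharP.cast_eq_zero K 3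
  have : (1 : K) = 0 := by linear_combination h3 - h
  exact one_ne_zero this

theorem deriv_cube (m : K[X]) : derivative (m ^ 3) = 0 := by
  have h3 : (3 : K) = 0 := by exact_mod_cast CharP.cast_eq_zero K 3
  rw [derivative_pow]
  simp [h3]

theorem exceptional (f g : K[X]) (c : K) (hf : f.Monic) (hd : derivative f = C c * g ^ 2)
    (hc : ¬ (IsSquare ((-1 : K) ^ (f.natDegree * (f.natDegree - 1) / 2) * c ^ f.natDegree) ↔
      Odd f.natDegree)) (m : K[X]) (hm : 3 * m.natDegree < f.natDegree) :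
    ¬ Irreducible (f - m ^ 3) := by
  intro hi
  have h1 : (m ^ 3).natDegree < f.natDegree := by rw [natDegree_pow]; exact hm
  have h2 : (f - m ^ 3).natDegree = f.natDegree := natDegree_sub_eq_left_of_natDegree_lt h1
  have h3 : (f - m ^ 3).Monic := hf.sub_of_left (degree_lt_degree h1)
  have h4 : derivative (f - m ^ 3) = C c * g ^ 2 := by
    rw [derivative_sub, deriv_cube, sub_zero, hd]
  have h5 := irr_criterion two_ne (f - m ^ 3) h3 hi c g h4
  rw [h2] at h5
  exact hc h5

theorem deriv_family (w G : K[X]) (c : K) :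
    derivative (w ^ 3 + C c * X * G ^ 6) = C c * (G ^ 3) ^ 2 := by
  have h6 : derivative (G ^ 6) = 0 := by
    have : G ^ 6 = (G ^ 2) ^ 3 := by ring
    rw [this, deriv_cube]
  rw [derivative_add, deriv_cube, zero_add, derivative_mul, h6, mul_zero, add_zero,
    derivative_C_mul, derivative_X]
  ring

theorem cube_inj (a b : K[X]) (h : a ^ 3 = b ^ 3) : a = b := by
  have : ExpChar K[X] 3 := ExpChar.prime Nat.prime_three
  exact frobenius_inj K[X] 3 h

theorem not_cube (f g : K[X]) (c : K) (hc : c ≠ 0) (hg : g ≠ 0) (hd : derivative f = C c * g ^ 2)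
    (r : K[X]) : f ≠ r ^ 3 := by
  rintro rfl
  rw [deriv_cube] at hd
  have : C c * g ^ 2 ≠ 0 := mul_ne_zero (C_ne_zero.2 hc) (pow_ne_zero _ hg)
  exact this hd.symm

theorem family_monic (w G : K[X]) (c : K) (k d : ℕ) (hw : w.Monic) (hk : w.natDegree = k)
    (hd : G.natDegree = d) (hlt : 6 * d + 1 < 3 * k) :
    (w ^ 3 + C c * X * G ^ 6).Monic ∧ (w ^ 3 + C c * X * G ^ 6).natDegree = 3 * k := by
  have h1 : (w ^ 3).natDegree = 3 * k := by rw [hw.natDegree_pow, hk]
  have h2 : (C c * X * G ^ 6).natDegree < 3 * k := by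
    calc (C c * X * G ^ 6).natDegree ≤ (C c * X).natDegree + (G ^ 6).natDegree := natDegree_mul_le
      _ ≤ 1 + 6 * d := by
          refine Nat.add_le_add ?_ ?_
          · exact (natDegree_C_mul_le c X).trans natDegree_X_le
          · rw [natDegree_pow, hd]
      _ < 3 * k := by omega
  refine ⟨(hw.pow 3).add_of_left (degree_lt_degree (by rw [h1]; exact h2)), ?_⟩
  rw [natDegree_add_eq_left_of_natDegree_lt (by rw [h1]; exact h2), h1]

theorem family_inj (w w' G G' : K[X]) (c : K) (hc : c ≠ 0) (hG : G.Monic) (hG' : G'.Monic)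
    (h : w ^ 3 + C c * X * G ^ 6 = w' ^ 3 + C c * X * G' ^ 6) : w = w' ∧ G = G' := by
  have h1 := congrArg derivative h
  rw [deriv_family, deriv_family] at h1
  have h2 : (G ^ 3) ^ 2 = (G' ^ 3) ^ 2 := mul_left_cancel₀ (C_ne_zero.2 hc) h1
  have h3 : G ^ 2 = G' ^ 2 := cube_inj _ _ (by linear_combination h2)
  have h4 : (G - G') * (G + G') = 0 := by linear_combination h3
  have h5 : G = G' := by
    rcases mul_eq_zero.1 h4 with h | h
    · exact sub_eq_zero.1 h
    · exfalso
      have h6 : G = -G' := by linear_combination h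
      have h7 : G.leadingCoeff = (-G').leadingCoeff := by rw [h6]
      rw [hG.leadingCoeff, leadingCoeff_neg, hG'.leadingCoeff] at h7
      exact two_ne (K := K) (by linear_combination h7)
  subst h5
  refine ⟨cube_inj _ _ ?_, rfl⟩
  exact add_right_cancel h

/-- the number of monic polynomials of degree `n` -/
theorem card_monic (n : ℕ) :
    Nat.card {p : K[X] // p.Monic ∧ p.natDegree = n} = Fintype.card K ^ n := by
  rw [Nat.card_congr ((monicEquivDegreeLT n).trans (degreeLTEquiv K n).toEquiv), Nat.card_fun,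
    Nat.card_eq_fintype_card, Nat.card_eq_fintype_card, Fintype.card_fin]

theorem count_family (k d : ℕ) (hlt : 6 * d + 1 < 3 * k) (c : K) (hc0 : c ≠ 0)
    (hc : ¬ (IsSquare ((-1 : K) ^ (3 * k * (3 * k - 1) / 2) * c ^ (3 * k)) ↔ Odd (3 * k))) :
    ((Fintype.card K ^ (k + d) : ℕ) : ℕ∞) ≤
      Set.encard {f : K[X] | f.Monic ∧ f.natDegree = 3 * k ∧ (∀ r : K[X], f ≠ r ^ 3) ∧
        ∀ m : K[X], 3 * m.natDegree < 3 * k → ¬ Irreducible (f - m ^ 3)} := by
  classical
  let A := {p : K[X] // p.Monic ∧ p.natDegree = k}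
  let B := {p : K[X] // p.Monic ∧ p.natDegree = d}
  let Φ : A × B → K[X] := fun x => x.1.1 ^ 3 + C c * X * x.2.1 ^ 6
  have hΦ : Function.Injective Φ := by
    rintro ⟨⟨w, hw⟩, ⟨G, hG⟩⟩ ⟨⟨w', hw'⟩, ⟨G', hG'⟩⟩ h
    obtain ⟨h1, h2⟩ := family_inj w w' G G' c hc0 hG.1 hG'.1 h
    subst h1; subst h2; rfl
  have : Finite A := Finite.of_equiv _ ((monicEquivDegreeLT k).trans
    (degreeLTEquiv K k).toEquiv).symm
  have : Finite B := Finite.of_equiv _ ((monicEquivDegreeLT d).trans
    (degreeLTEquiv K d).toEquiv).symm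
  have h1 : ((Fintype.card K ^ (k + d) : ℕ) : ℕ∞) = ENat.card (A × B) := by
    rw [ENat.card_eq_coe_natCard, Nat.card_prod, card_monic, card_monic, pow_add]
  rw [h1]
  refine le_trans hΦ.encard_range (Set.encard_le_encard ?_)
  rintro _ ⟨⟨⟨w, hw⟩, ⟨G, hG⟩⟩, rfl⟩
  obtain ⟨hm, hdeg⟩ := family_monic w G c k d hw.1 hw.2 hG.2 hlt
  have hder := deriv_family w G c
  refine ⟨hm, hdeg, ?_, ?_⟩
  · exact not_cube _ (G ^ 3) c hc0 (pow_ne_zero _ hG.1.ne_zero) hder
  · intro m hmd
    refine exceptional _ (G ^ 3) c hm hder ?_ m ?_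
    · rw [hdeg]; exact hc
    · rw [hdeg]; exact hmd

theorem exists_const (k : ℕ) (h6 : 3 * k % 12 = 6 → IsSquare (-1 : K)) :
    ∃ c : K, c ≠ 0 ∧
      ¬ (IsSquare ((-1 : K) ^ (3 * k * (3 * k - 1) / 2) * c ^ (3 * k)) ↔ Odd (3 * k)) := by
  rcases Nat.even_or_odd (3 * k) with he | ho
  · refine ⟨1, one_ne_zero, ?_⟩
    rw [one_pow, mul_one]
    intro h
    rw [← Nat.not_even_iff_odd] at h
    apply h.1 ?_ he
    have h4 : 3 * k % 12 = 6 ∨ 3 * k % 12 = 0 := by
      obtain ⟨j, hj⟩ := he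
      omega
    rcases h4 with h4 | h4
    · exact (h6 h4).pow _
    · have h5 : Even (3 * k * (3 * k - 1) / 2) := by
        obtain ⟨j, hj⟩ : ∃ j, 3 * k = 12 * j := ⟨3 * k / 12, by omega⟩
        rw [hj]
        refine ⟨3 * j * (12 * j - 1), ?_⟩
        have : 12 * j * (12 * j - 1) = 2 * (3 * j * (12 * j - 1) + 3 * j * (12 * j - 1)) := by ring
        rw [this, Nat.mul_div_cancel_left _ two_pos]
      rw [h5.neg_one_pow]
      exact ⟨1, by ring⟩
  · obtain ⟨ν, hν⟩ := FiniteField.exists_nonsquare (F := K) (by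
      intro h
      have h20 : (2 : K) = 0 := by
        have hc2 := ringChar.of_eq h
        exact_mod_cast (CharP.cast_eq_zero K 2)
      exact two_ne h20)
    have hν0 : ν ≠ 0 := by
      rintro rfl
      exact hν ⟨0, by simp⟩
    refine ⟨(-1) ^ (3 * k * (3 * k - 1) / 2) * ν, mul_ne_zero (pow_ne_zero _ (by simp)) hν0, ?_⟩
    intro h
    apply hν
    obtain ⟨r, hr⟩ := h.2 ho
    obtain ⟨j, hj⟩ := ho
    set s : K := (-1) ^ (3 * k * (3 * k - 1) / 2) with hs
    have hss : s * s = 1 := by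
      rw [hs, ← pow_add, ← two_mul, pow_mul]; simp
    rw [hj] at hr
    have hs0 : s ≠ 0 := by
      intro h0; rw [h0] at hss; simp at hss
    refine ⟨r / (s ^ (j + 1) * ν ^ j), ?_⟩
    have hsn : s ^ (j + 1) * ν ^ j ≠ 0 := mul_ne_zero (pow_ne_zero _ hs0) (pow_ne_zero _ hν0)
    field_simp
    have : r * r = (s ^ (j + 1) * ν ^ j) * (s ^ (j + 1) * ν ^ j) * ν := by
      rw [← hr]; ring
    linear_combination -this

end Pool.Agent.H6.C3
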