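import Mathlib

set_option autoImplicit false

namespace Pool.Agent.H6.C3

open Polynomial Algebra Module

variable {K L : Type*} [Field K] [Field L] [Algebra K L]

theorem rot (n : ℕ) (F : L →ₐ[K] L) (hF : F ^ n = 1) (b : Fin n → L) :
    F (Matrix.det (Matrix.of fun i j : Fin n => (F ^ (j : ℕ)) (b i))) =
      (-1) ^ (n - 1) * Matrix.det (Matrix.of fun i j : Fin n => (F ^ (j : ℕ)) (b i)) := by
  rcases n with _ | m
  · simp
  have h1 : F.toRingHom.mapMatrix (Matrix.of fun i j : Fin (m + 1) => (F ^ (j : ℕ)) (b i)) =
      (Matrix.of fun i j : Fin (m + 1) => (F ^ (j : ℕ)) (b i)).submatrix id (finRotate (m + 1)) := by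
    ext i j
    simp only [RingHom.mapMatrix_apply, Matrix.map_apply, Matrix.of_apply, Matrix.submatrix_apply,
      id_eq, coe_finRotate]
    have h2 : (F.toRingHom) ((F ^ (j : ℕ)) (b i)) = (F ^ ((j : ℕ) + 1)) (b i) := by
      rw [pow_succ']; rfl
    rw [h2]
    split_ifs with hj
    · subst hj
      simp [hF]
    · rfl
  have h3 := RingHom.map_det F.toRingHom (Matrix.of fun i j : Fin (m + 1) => (F ^ (j : ℕ)) (b i))
  rw [h1, Matrix.det_permute', sign_finRotate] at h3
  have h4 : F (Matrix.det (Matrix.of fun i j : Fin (m + 1) => (F ^ (j : ℕ)) (b i))) =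
    F.toRingHom (Matrix.det (Matrix.of fun i j : Fin (m + 1) => (F ^ (j : ℕ)) (b i))) := rfl
  rw [h4, h3]
  push_cast
  rfl

variable [Fintype K] [Finite L]

theorem discr_sq (pb : PowerBasis K L) :
    ∃ δ : L, algebraMap K L (discr K pb.basis) = δ ^ 2 ∧
      δ ^ Fintype.card K = (-1) ^ (finrank K L - 1) * δ := by
  classical
  have hfin : FiniteDimensional K L := pb.finite
  let F : L →ₐ[K] L := FiniteField.frobeniusAlgHom K L
  have hdim : finrank K L = pb.dim := PowerBasis.finrank pb
  have hF : F ^ pb.dim = 1 := by
    rw [← hdim, ← FiniteField.orderOf_frobeniusAlgHom K L]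
    exact pow_orderOf_eq_one _
  have hinj : Function.Injective fun j : Fin pb.dim => F ^ (j : ℕ) := by
    have h := (FiniteField.bijective_frobeniusAlgHom_pow K L).1
    intro i j hij
    have := @h (Fin.cast hdim.symm i) (Fin.cast hdim.symm j) (by simpa using hij)
    simpa [Fin.ext_iff] using this
  let E := AlgebraicClosure L
  let ι : L →ₐ[K] E := IsScalarTower.toAlgHom K L E
  have hι : Function.Injective ι := ι.toRingHom.injective
  let s : Fin pb.dim → (L →ₐ[K] E) := fun j => ι.comp (F ^ (j : ℕ))
  have hs : Function.Bijective s := by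
    rw [Fintype.bijective_iff_injective_and_card]
    constructor
    · intro i j hij
      apply hinj
      ext x
      apply hι
      exact DFunLike.congr_fun hij x
    · rw [AlgHom.card K L E, Fintype.card_fin, hdim]
  let e : Fin pb.dim ≃ (L →ₐ[K] E) := Equiv.ofBijective s hs
  have h := discr_eq_det_embeddingsMatrixReindex_pow_two K E pb.basis e
  let N : Matrix (Fin pb.dim) (Fin pb.dim) L := Matrix.of fun i j => (F ^ (j : ℕ)) (pb.basis i)
  have hN : embeddingsMatrixReindex K E pb.basis e = ι.toRingHom.mapMatrix N := by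
    ext i j
    rfl
  refine ⟨N.det, ?_, ?_⟩
  · apply hι
    rw [hN, ← RingHom.map_det, ← map_pow] at h
    have h' : ι (N.det ^ 2) = ι.toRingHom (N.det ^ 2) := rfl
    rw [h', ← h]
    rfl
  · have := rot pb.dim F hF pb.basis
    rw [hdim]
    exact this

/-- Stickelberger for an irreducible polynomial over a finite field of odd order: the discriminant is a
square if and only if the degree is odd. -/
theorem isSquare_discr (h2 : (2 : L) ≠ 0) (pb : PowerBasis K L) :
    IsSquare (discr K pb.basis) ↔ Odd (finrank K L) := by
  classical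
  have hfin : FiniteDimensional K L := pb.finite
  have hpos : 0 < finrank K L := finrank_pos
  obtain ⟨δ, h1, h3⟩ := discr_sq pb
  have hd0 : discr K pb.basis ≠ 0 := discr_not_zero_of_basis K pb.basis
  have hδ : δ ≠ 0 := by
    rintro rfl
    apply hd0
    apply (algebraMap K L).injective
    rw [h1]; simp
  have hodd : Odd (finrank K L) ↔ δ ^ Fintype.card K = δ := by
    rw [h3]
    constructor
    · intro ho
      have : Even (finrank K L - 1) := by
        obtain ⟨k, hk⟩ := ho
        exact ⟨k, by omega⟩
      rw [this.neg_one_pow, one_mul]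
    · intro he
      by_contra ho
      have : Odd (finrank K L - 1) := by
        rw [Nat.not_odd_iff_even] at ho
        obtain ⟨k, hk⟩ := ho
        exact ⟨k - 1, by omega⟩
      rw [this.neg_one_pow] at he
      have h5 : (2 : L) * δ = 0 := by linear_combination -he
      rcases mul_eq_zero.1 h5 with h | h
      · exact h2 h
      · exact hδ h
  rw [hodd]
  constructor
  · rintro ⟨s, hs⟩
    have h4 : (δ - algebraMap K L s) * (δ + algebraMap K L s) = 0 := by
      have : algebraMap K L (s * s) = δ ^ 2 := by rw [← hs, h1]
      rw [map_mul] at this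
      linear_combination -this
    have hs' : (algebraMap K L s) ^ Fintype.card K = algebraMap K L s := by
      rw [← map_pow, FiniteField.pow_card]
    rcases mul_eq_zero.1 h4 with h | h
    · rw [sub_eq_zero.1 h, hs']
    · have : δ = algebraMap K L (-s) := by rw [map_neg]; linear_combination h
      rw [this, ← map_pow, FiniteField.pow_card]
  · intro hf
    have hmem : δ ∈ Set.range (algebraMap K L) := by
      rw [IsGalois.mem_range_algebraMap_iff_fixed]
      intro σ
      obtain ⟨n, hn⟩ := (FiniteField.bijective_frobeniusAlgHom_pow K L).2 (σ : L →ₐ[K] L)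
      have hn' : FiniteField.frobeniusAlgHom K L ^ n.1 = (σ : L →ₐ[K] L) := hn
      have h5 : σ δ = (FiniteField.frobeniusAlgHom K L ^ n.1) δ := by
        rw [hn']; rfl
      rw [h5]
      generalize n.1 = k
      induction k with
      | zero => simp
      | succ k ih =>
        rw [pow_succ', AlgHom.mul_apply, ih]
        exact hf
    obtain ⟨s, hs⟩ := hmem
    refine ⟨s, ?_⟩
    apply (algebraMap K L).injective
    rw [h1, map_mul, hs, pow_two]

end Pool.Agent.H6.C3
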